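import Mathlib

/-!
# MP_93267c_al : relative subgroup commutativity degrees in ZM-groups

For every admissible `(m, n, r)` and every `(m₁, n₁, s) ∈ L` the number `sd(H_(m₁,n₁,s), ZM(m,n,r))`
is computed. Up to conjugacy a subgroup is `⟨a^d, b^x⟩` with `d ∣ m`, `x ∣ n`; the conjugate by `a^t`
only depends on `t` modulo `U x d`, the part of `d` prime to `r^x - 1`, and the subgroups with
parameters `(d, x, t)` and `(e, y, t')` permute exactly when `t ≡ t'` modulo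
`gcd (U x d) (U y e)`. The count then factors over the primes dividing `m`.
-/

set_option autoImplicit false

namespace Pool.Agent.Results.MP_93267c_al.SdZM

open scoped Pointwise

/-- the triple `(m, n, r)` is admissible -/
structure Admissible (m n r : ℕ) : Prop where
  pos_m : 0 < m
  pos_n : 0 < n
  gcd_mn : Nat.gcd m n = 1
  gcd_mr : Int.gcd m ((r : ℤ) - 1) = 1
  pow_r : r ^ n ≡ 1 [MOD m]

/-- `G` is the group `ZM(m, n, r) = ⟨a, b | a^m = b^n = 1, b⁻¹ a b = a^r⟩` of order `m n` -/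
structure IsZM (m n r : ℕ) {G : Type} [Group G] (a b : G) : Prop where
  pow_a : a ^ m = 1
  pow_b : b ^ n = 1
  conj : b⁻¹ * a * b = a ^ r
  gen : Subgroup.closure {a, b} = ⊤
  card : Nat.card G = m * n

section Group

variable {m n r : ℕ} {G : Type} [Group G] {a b : G}

theorem zpow_comm (h : IsZM m n r a b) (j : ℤ) : a ^ j * b = b * a ^ (j * r) := by
  have e1 : (b⁻¹ * a * b) ^ j = b⁻¹ * a ^ j * b := by
    have := conj_zpow (i := j) (a := b⁻¹) (b := a)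
    rw [inv_inv] at this
    exact this
  rw [h.conj, ← zpow_natCast, ← zpow_mul, mul_comm (r : ℤ)] at e1
  rw [e1]
  group

theorem zpow_comm_pow (h : IsZM m n r a b) (i : ℕ) (j : ℤ) :
    a ^ j * b ^ i = b ^ i * a ^ (j * (r : ℤ) ^ i) := by
  induction i generalizing j with
  | zero => simp
  | succ i ih =>
    rw [pow_succ b, ← mul_assoc, ih, mul_assoc, zpow_comm h, ← mul_assoc, mul_assoc j,
      pow_succ (r : ℤ)]

theorem E_mul (h : IsZM m n r a b) (i i' : ℕ) (j j' : ℤ) :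
    (b ^ i * a ^ j) * (b ^ i' * a ^ j') = b ^ (i + i') * a ^ (j * (r : ℤ) ^ i' + j') := by
  rw [mul_assoc, ← mul_assoc (a ^ j), zpow_comm_pow h, zpow_add, pow_add]
  simp only [mul_assoc]

theorem E_inv (h : IsZM m n r a b) (hA : Admissible m n r) (i : ℕ) (j : ℤ) :
    (b ^ i * a ^ j)⁻¹ = b ^ ((n - 1) * i) * a ^ (-j * (r : ℤ) ^ ((n - 1) * i)) := by
  rw [← zpow_comm_pow h, mul_inv_rev, zpow_neg]
  congr 1
  rw [inv_eq_iff_mul_eq_one, ← pow_add]
  have : i + (n - 1) * i = n * i := by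
    obtain ⟨k, hk⟩ : ∃ k, n = k + 1 := ⟨n - 1, by have := hA.pos_n; omega⟩
    rw [hk, Nat.add_sub_cancel]
    ring
  rw [this, pow_mul, h.pow_b, one_pow]

theorem E_surj (h : IsZM m n r a b) (hA : Admissible m n r) (g : G) :
    ∃ (i : ℕ) (j : ℤ), g = b ^ i * a ^ j := by
  have hg : g ∈ Subgroup.closure {a, b} := by
    rw [h.gen]
    exact Subgroup.mem_top g
  induction hg using Subgroup.closure_induction with
  | mem x hx =>
    rcases hx with rfl | rfl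
    · exact ⟨0, 1, by simp⟩
    · exact ⟨1, 0, by simp⟩
  | one => exact ⟨0, 0, by simp⟩
  | mul x y _ _ hx hy =>
    obtain ⟨i, j, rfl⟩ := hx
    obtain ⟨i', j', rfl⟩ := hy
    exact ⟨_, _, E_mul h i i' j j'⟩
  | inv x _ hx =>
    obtain ⟨i, j, rfl⟩ := hx
    exact ⟨_, _, E_inv h hA i j⟩

theorem b_pow_eq (h : IsZM m n r a b) {i i' : ℕ} (hi : i ≡ i' [MOD n]) : b ^ i = b ^ i' := by
  rw [pow_eq_pow_iff_modEq]
  exact hi.of_dvd (orderOf_dvd_of_pow_eq_one h.pow_b)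

theorem a_zpow_eq (h : IsZM m n r a b) {j j' : ℤ} (hj : (m : ℤ) ∣ j - j') : a ^ j = a ^ j' := by
  obtain ⟨k, hk⟩ := hj
  have : j = j' + m * k := by linarith
  rw [this, zpow_add, zpow_mul, zpow_natCast, h.pow_a, one_zpow, mul_one]

theorem E_eq (h : IsZM m n r a b) (hA : Admissible m n r) {i i' : ℕ} {j j' : ℤ} :
    b ^ i * a ^ j = b ^ i' * a ^ j' ↔ i ≡ i' [MOD n] ∧ (m : ℤ) ∣ j - j' := by
  constructor
  · intro heq
    have hn := hA.pos_n
    have hm := hA.pos_m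
    have : NeZero n := ⟨hn.ne'⟩
    have : NeZero m := ⟨hm.ne'⟩
    have hm0 : (m : ℤ) ≠ 0 := by exact_mod_cast hm.ne'
    have hm1 : (0 : ℤ) < m := by exact_mod_cast hm
    let f : Fin n × Fin m → G := fun p => b ^ (p.1 : ℕ) * a ^ ((p.2 : ℕ) : ℤ)
    have hred : ∀ (i : ℕ) (j : ℤ), b ^ i * a ^ j =
        f (⟨i % n, Nat.mod_lt _ hn⟩, ⟨(j % m).toNat, by
          have h1 := Int.emod_lt_of_pos j hm1
          have h2 := Int.emod_nonneg j hm0
          omega⟩) := by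
      intro i j
      show b ^ i * a ^ j = b ^ (i % n) * a ^ (((j % m).toNat : ℕ) : ℤ)
      rw [Int.toNat_of_nonneg (Int.emod_nonneg j hm0)]
      rw [b_pow_eq h (Nat.mod_modEq i n).symm, a_zpow_eq h (j := j) (j' := j % m)]
      exact Int.dvd_self_sub_emod
    have hsurj : Function.Surjective f := by
      intro g
      obtain ⟨i, j, rfl⟩ := E_surj h hA g
      exact ⟨_, (hred i j).symm⟩
    have hfin : Finite G := Finite.of_surjective f hsurj
    have hbij : Function.Bijective f := by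
      have : Fintype G := Fintype.ofFinite G
      rw [Fintype.bijective_iff_surjective_and_card]
      refine ⟨hsurj, ?_⟩
      rw [Fintype.card_prod, Fintype.card_fin, Fintype.card_fin, ← Nat.card_eq_fintype_card, h.card,
        mul_comm]
    rw [hred i j, hred i' j'] at heq
    have := hbij.1 heq
    rw [Prod.mk.injEq, Fin.mk.injEq, Fin.mk.injEq] at this
    refine ⟨this.1, ?_⟩
    have h1 := Int.emod_nonneg j hm0
    have h2 := Int.emod_nonneg j' hm0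
    have h3 : j % m = j' % m := by omega
    exact Int.ModEq.dvd (Int.ModEq.symm h3)
  · rintro ⟨h1, h2⟩
    rw [b_pow_eq h h1, a_zpow_eq h h2]

theorem r_pow (hA : Admissible m n r) : (m : ℤ) ∣ (r : ℤ) ^ n - 1 := by
  have h := (Nat.modEq_iff_dvd.mp hA.pow_r.symm)
  push_cast at h
  exact h

theorem r_pow_mul (hA : Admissible m n r) (k : ℕ) : (m : ℤ) ∣ (r : ℤ) ^ (n * k) - 1 := by
  rw [pow_mul]
  exact (r_pow hA).trans (sub_one_dvd_pow_sub_one _ _)

/-- `a^(-t) ⟨a^m₁, b^n₁⟩ a^t` as a monoid -/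
def KM (h : IsZM m n r a b) (m₁ n₁ : ℕ) (t : ℤ) : Submonoid G where
  carrier := {g | ∃ (i : ℕ) (j : ℤ), g = b ^ i * a ^ j ∧ n₁ ∣ i ∧ (m₁ : ℤ) ∣ j + t * ((r : ℤ) ^ i - 1)}
  one_mem' := ⟨0, 0, by simp, dvd_zero _, by simp⟩
  mul_mem' := by
    rintro x y ⟨i, j, rfl, hi, hj⟩ ⟨i', j', rfl, hi', hj'⟩
    refine ⟨_, _, E_mul h i i' j j', hi.add hi', ?_⟩
    have e : j * (r : ℤ) ^ i' + j' + t * ((r : ℤ) ^ (i + i') - 1) =
        (j + t * ((r : ℤ) ^ i - 1)) * (r : ℤ) ^ i' + (j' + t * ((r : ℤ) ^ i' - 1)) := by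
      rw [pow_add]
      ring
    rw [e]
    exact (hj.mul_right _).add hj'

theorem finite_G (h : IsZM m n r a b) (hA : Admissible m n r) : Finite G := by
  apply Nat.finite_of_card_ne_zero
  rw [h.card]
  exact (Nat.mul_pos hA.pos_m hA.pos_n).ne'

/-- `a^(-t) ⟨a^m₁, b^n₁⟩ a^t` -/
def K (h : IsZM m n r a b) (hA : Admissible m n r) (m₁ n₁ : ℕ) (t : ℤ) : Subgroup G :=
  { KM h m₁ n₁ t with
    inv_mem' := by
      intro x hx
      have : Finite G := finite_G h hA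
      have e : x⁻¹ = x ^ (orderOf x - 1) := by
        rw [inv_eq_iff_mul_eq_one, ← pow_succ', Nat.sub_add_cancel (orderOf_pos x), pow_orderOf_eq_one]
      show x⁻¹ ∈ KM h m₁ n₁ t
      rw [e]
      exact pow_mem hx _ }

theorem mem_K' (h : IsZM m n r a b) (hA : Admissible m n r) {m₁ n₁ : ℕ} {t : ℤ} {g : G} :
    g ∈ K h hA m₁ n₁ t ↔ ∃ (i : ℕ) (j : ℤ), g = b ^ i * a ^ j ∧ n₁ ∣ i ∧
      (m₁ : ℤ) ∣ j + t * ((r : ℤ) ^ i - 1) := Iff.rfl

theorem r_congr (hA : Admissible m n r) {i i' : ℕ} (h1 : i ≡ i' [MOD n]) :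
    (m : ℤ) ∣ (r : ℤ) ^ i - (r : ℤ) ^ i' := by
  rcases le_total i i' with hle | hle
  · obtain ⟨k, hk⟩ := (Nat.modEq_iff_dvd' hle).mp h1
    have e : (r : ℤ) ^ i - (r : ℤ) ^ i' = -((r : ℤ) ^ i * ((r : ℤ) ^ (n * k) - 1)) := by
      rw [← hk, mul_sub, ← pow_add, Nat.add_sub_cancel' hle]
      ring
    rw [e]
    exact ((r_pow_mul hA k).mul_left _).neg_right
  · obtain ⟨k, hk⟩ := (Nat.modEq_iff_dvd' hle).mp h1.symm
    have e : (r : ℤ) ^ i - (r : ℤ) ^ i' = (r : ℤ) ^ i' * ((r : ℤ) ^ (n * k) - 1) := by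
      rw [← hk, mul_sub, ← pow_add, Nat.add_sub_cancel' hle]
      ring
    rw [e]
    exact (r_pow_mul hA k).mul_left _

theorem mem_K (h : IsZM m n r a b) (hA : Admissible m n r) {m₁ n₁ : ℕ} (hm₁ : m₁ ∣ m)
    (hn₁ : n₁ ∣ n) {t : ℤ} {i : ℕ} {j : ℤ} :
    b ^ i * a ^ j ∈ K h hA m₁ n₁ t ↔ n₁ ∣ i ∧ (m₁ : ℤ) ∣ j + t * ((r : ℤ) ^ i - 1) := by
  constructor
  · rintro ⟨i', j', heq, hi', hj'⟩
    rw [E_eq h hA] at heq
    obtain ⟨h1, h2⟩ := heq
    have hm₁' : (m₁ : ℤ) ∣ m := by exact_mod_cast hm₁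
    refine ⟨(Nat.ModEq.dvd_iff h1 hn₁).mpr hi', ?_⟩
    have h3 := r_congr hA h1
    have e : j + t * ((r : ℤ) ^ i - 1) = (j' + t * ((r : ℤ) ^ i' - 1)) + (j - j') +
        t * ((r : ℤ) ^ i - (r : ℤ) ^ i') := by ring
    rw [e]
    exact (hj'.add (hm₁'.trans h2)).add ((hm₁'.trans h3).mul_left _)
  · rintro ⟨h1, h2⟩
    exact ⟨i, j, rfl, h1, h2⟩

theorem a_mem_K (h : IsZM m n r a b) (hA : Admissible m n r) {m₁ n₁ : ℕ} (hm₁ : m₁ ∣ m)
    (hn₁ : n₁ ∣ n) {t : ℤ} {j : ℤ} : a ^ j ∈ K h hA m₁ n₁ t ↔ (m₁ : ℤ) ∣ j := by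
  have := mem_K h hA hm₁ hn₁ (t := t) (i := 0) (j := j)
  rw [pow_zero, one_mul, pow_zero, sub_self, mul_zero, add_zero] at this
  rw [this]
  exact ⟨fun h => h.2, fun h => ⟨dvd_zero _, h⟩⟩

/-- powers of `b^i a^s` -/
theorem pow_form (h : IsZM m n r a b) (i : ℕ) (s : ℤ) (k : ℕ) :
    (b ^ i * a ^ s) ^ k = b ^ (i * k) * a ^ (s * ∑ l ∈ Finset.range k, (r : ℤ) ^ (i * l)) := by
  induction k with
  | zero => simp
  | succ k ih =>
    rw [pow_succ', ih, E_mul h, Finset.sum_range_succ]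
    congr 1
    · congr 1
      ring
    · congr 1
      ring

/-- two subgroups agreeing on `⟨a⟩` and sharing an element over `b^n₁` -/
theorem le_of (h : IsZM m n r a b) (hA : Admissible m n r) {S T : Subgroup G} {n₁ : ℕ} {s : ℤ}
    (hS : b ^ n₁ * a ^ s ∈ S) (hT : b ^ n₁ * a ^ s ∈ T) (ha : ∀ j : ℤ, a ^ j ∈ S → a ^ j ∈ T)
    (hdiv : ∀ (i : ℕ) (j : ℤ), b ^ i * a ^ j ∈ S → n₁ ∣ i) : S ≤ T := by
  intro g hg
  obtain ⟨i, j, rfl⟩ := E_surj h hA g
  obtain ⟨q, rfl⟩ := hdiv i j hg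
  have hSq := pow_mem hS q
  have hTq := pow_mem hT q
  rw [pow_form h] at hSq hTq
  set j' := s * ∑ l ∈ Finset.range q, (r : ℤ) ^ (n₁ * l)
  have e1 : b ^ (n₁ * q) * a ^ j = (b ^ (n₁ * q) * a ^ j') * a ^ (j - j') := by
    rw [mul_assoc, ← zpow_add]
    congr 2
    ring
  have h1 : a ^ (j - j') ∈ S := by
    have : a ^ (j - j') = (b ^ (n₁ * q) * a ^ j')⁻¹ * (b ^ (n₁ * q) * a ^ j) := by
      rw [e1]
      group
    rw [this]
    exact mul_mem (inv_mem hSq) hg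
  rw [e1]
  exact mul_mem hTq (ha _ h1)

/-- solvability of `m₁ ∣ s + t (r^n₁ - 1)` -/
theorem exists_t (hA : Admissible m n r) {m₁ n₁ : ℕ} (hm₁ : m₁ ∣ m) (hn₁ : n₁ ∣ n) {s : ℤ}
    (hs : (m₁ : ℤ) ∣ s * ∑ l ∈ Finset.range (n / n₁), (r : ℤ) ^ (n₁ * l)) :
    ∃ t : ℤ, (m₁ : ℤ) ∣ s + t * ((r : ℤ) ^ n₁ - 1) := by
  have hg : (Int.gcd m₁ ((r : ℤ) ^ n₁ - 1) : ℤ) ∣ s := by
    set g := Int.gcd m₁ ((r : ℤ) ^ n₁ - 1) with hgdef
    have h1 : (g : ℤ) ∣ m₁ := Int.gcd_dvd_left _ _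
    have h2 : (g : ℤ) ∣ (r : ℤ) ^ n₁ - 1 := Int.gcd_dvd_right _ _
    have h3 : (g : ℤ) ∣ (∑ l ∈ Finset.range (n / n₁), (r : ℤ) ^ (n₁ * l)) - ((n / n₁ : ℕ) : ℤ) := by
      have : (∑ l ∈ Finset.range (n / n₁), (r : ℤ) ^ (n₁ * l)) - ((n / n₁ : ℕ) : ℤ) =
          ∑ l ∈ Finset.range (n / n₁), ((r : ℤ) ^ (n₁ * l) - 1) := by
        rw [Finset.sum_sub_distrib]
        simp
      rw [this]
      refine Finset.dvd_sum fun l _ => h2.trans ?_
      rw [pow_mul]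
      exact sub_one_dvd_pow_sub_one _ _
    have h4 : (g : ℤ) ∣ s * ((n / n₁ : ℕ) : ℤ) := by
      have e : s * ((n / n₁ : ℕ) : ℤ) = s * (∑ l ∈ Finset.range (n / n₁), (r : ℤ) ^ (n₁ * l)) -
          s * ((∑ l ∈ Finset.range (n / n₁), (r : ℤ) ^ (n₁ * l)) - ((n / n₁ : ℕ) : ℤ)) := by ring
      rw [e]
      exact (h1.trans hs).sub (h3.mul_left _)
    have h5 : IsCoprime (g : ℤ) ((n / n₁ : ℕ) : ℤ) := by
      rw [Nat.isCoprime_iff_coprime]
      refine Nat.Coprime.coprime_dvd_right (Nat.div_dvd_of_dvd hn₁) ?_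
      have : g ∣ m := (by exact_mod_cast h1 : g ∣ m₁).trans hm₁
      exact Nat.Coprime.coprime_dvd_left this hA.gcd_mn
    exact h5.dvd_of_dvd_mul_right h4
  obtain ⟨k, hk⟩ := hg
  rw [Int.gcd_eq_gcd_ab] at hk
  refine ⟨-(Int.gcdB m₁ ((r : ℤ) ^ n₁ - 1) * k), Int.gcdA m₁ ((r : ℤ) ^ n₁ - 1) * k, ?_⟩
  rw [hk]
  ring

/-- every subgroup is some `K m₁ n₁ t` -/
theorem exists_K (h : IsZM m n r a b) (hA : Admissible m n r) (S : Subgroup G) :
    ∃ m₁ n₁ : ℕ, m₁ ∣ m ∧ n₁ ∣ n ∧ ∃ t : ℤ, S = K h hA m₁ n₁ t := by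
  classical
  -- the part in `⟨a⟩`
  let Z : AddSubgroup ℤ :=
    { carrier := {j | a ^ j ∈ S}
      zero_mem' := by simp
      add_mem' := by
        intro x y hx hy
        show a ^ (x + y) ∈ S
        rw [zpow_add]
        exact mul_mem hx hy
      neg_mem' := by
        intro x hx
        show a ^ (-x) ∈ S
        rw [zpow_neg]
        exact inv_mem hx }
  obtain ⟨m₁, hm₁⟩ : ∃ m₁ : ℕ, ∀ j : ℤ, a ^ j ∈ S ↔ (m₁ : ℤ) ∣ j := by
    obtain ⟨c, hc⟩ := Int.subgroup_cyclic Z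
    refine ⟨c.natAbs, fun j => ?_⟩
    have : a ^ j ∈ S ↔ j ∈ Z := Iff.rfl
    rw [this, hc, AddSubgroup.mem_closure_singleton, Int.natAbs_dvd]
    constructor
    · rintro ⟨k, hk⟩
      exact ⟨k, by rw [← hk, smul_eq_mul, mul_comm]⟩
    · rintro ⟨k, hk⟩
      exact ⟨k, by rw [hk, smul_eq_mul, mul_comm]⟩
  have hm₁' : m₁ ∣ m := by
    have : a ^ (m : ℤ) ∈ S := by
      rw [zpow_natCast, h.pow_a]
      exact one_mem S
    exact_mod_cast (hm₁ m).mp this
  -- the part over `b`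
  have hex : ∃ i : ℕ, 0 < i ∧ ∃ j : ℤ, b ^ i * a ^ j ∈ S := ⟨n, hA.pos_n, 0, by
    rw [h.pow_b]
    simp⟩
  obtain ⟨n₁, hn₁⟩ : ∃ n₁, n₁ = Nat.find hex := ⟨_, rfl⟩
  obtain ⟨hn₁0, s, hs⟩ := Nat.find_spec hex
  rw [← hn₁] at hn₁0 hs
  have hdiv : ∀ (i : ℕ) (j : ℤ), b ^ i * a ^ j ∈ S → n₁ ∣ i := by
    intro i j hij
    by_contra hcon
    have hlt : i % n₁ < n₁ := Nat.mod_lt _ hn₁0
    have hpos : 0 < i % n₁ := Nat.pos_of_ne_zero fun h0 => hcon (Nat.dvd_of_mod_eq_zero h0)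
    refine Nat.find_min hex (m := i % n₁) (by rw [← hn₁]; exact hlt) ⟨hpos, ?_⟩
    have hq := pow_mem hs ((n - 1) * (i / n₁))
    rw [pow_form h] at hq
    have hprod := mul_mem hij hq
    rw [E_mul h] at hprod
    rw [b_pow_eq h (i' := i % n₁)] at hprod
    · exact ⟨_, hprod⟩
    · have e : i + n₁ * ((n - 1) * (i / n₁)) = i % n₁ + n * (n₁ * (i / n₁)) := by
        obtain ⟨k, hk⟩ : ∃ k, n = k + 1 := ⟨n - 1, by have := hA.pos_n; omega⟩
        have := Nat.mod_add_div i n₁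
        rw [hk, Nat.add_sub_cancel]
        nlinarith [this]
      rw [e]
      show (i % n₁ + n * (n₁ * (i / n₁))) % n = i % n₁ % n
      rw [Nat.add_mul_mod_self_left]
  have hn₁' : n₁ ∣ n := hdiv n 0 (by
    rw [h.pow_b]
    simp)
  obtain ⟨t, ht⟩ : ∃ t : ℤ, (m₁ : ℤ) ∣ s + t * ((r : ℤ) ^ n₁ - 1) := by
    apply exists_t hA hm₁' hn₁'
    have hq := pow_mem hs (n / n₁)
    rw [pow_form h, Nat.mul_div_cancel' hn₁', h.pow_b, one_mul] at hq
    exact (hm₁ _).mp hq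
  refine ⟨m₁, n₁, hm₁', hn₁', t, ?_⟩
  have hK : b ^ n₁ * a ^ s ∈ K h hA m₁ n₁ t := (mem_K h hA hm₁' hn₁').mpr ⟨dvd_rfl, ht⟩
  apply le_antisymm
  · exact le_of h hA hs hK (fun j hj => (a_mem_K h hA hm₁' hn₁').mpr ((hm₁ j).mp hj)) hdiv
  · exact le_of h hA hK hs (fun j hj => (hm₁ j).mpr ((a_mem_K h hA hm₁' hn₁').mp hj))
      (fun i j hij => ((mem_K h hA hm₁' hn₁').mp hij).1)

theorem K_le (h : IsZM m n r a b) (hA : Admissible m n r) {m₁ n₁ m₂ n₂ : ℕ} (hm₁ : m₁ ∣ m)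
    (hn₁ : n₁ ∣ n) (hm₂ : m₂ ∣ m) (hn₂ : n₂ ∣ n) {t t' : ℤ} :
    K h hA m₂ n₂ t' ≤ K h hA m₁ n₁ t ↔
      m₁ ∣ m₂ ∧ n₁ ∣ n₂ ∧ (m₁ : ℤ) ∣ (t' - t) * ((r : ℤ) ^ n₂ - 1) := by
  constructor
  · intro hle
    have h1 : a ^ (m₂ : ℤ) ∈ K h hA m₁ n₁ t := hle ((a_mem_K h hA hm₂ hn₂).mpr dvd_rfl)
    rw [a_mem_K h hA hm₁ hn₁] at h1
    have h2 : b ^ n₂ * a ^ (-(t' * ((r : ℤ) ^ n₂ - 1))) ∈ K h hA m₁ n₁ t :=
      hle ((mem_K h hA hm₂ hn₂).mpr ⟨dvd_rfl, by rw [neg_add_cancel]; exact dvd_zero _⟩)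
    rw [mem_K h hA hm₁ hn₁] at h2
    refine ⟨by exact_mod_cast h1, h2.1, ?_⟩
    have e : (t' - t) * ((r : ℤ) ^ n₂ - 1) =
        -(-(t' * ((r : ℤ) ^ n₂ - 1)) + t * ((r : ℤ) ^ n₂ - 1)) := by ring
    rw [e]
    exact h2.2.neg_right
  · rintro ⟨h1, h2, h3⟩
    intro g hg
    obtain ⟨i, j, rfl, hi, hj⟩ := (mem_K' h hA).mp hg
    refine (mem_K h hA hm₁ hn₁).mpr ⟨h2.trans hi, ?_⟩
    obtain ⟨q, rfl⟩ := hi
    have h4 : (r : ℤ) ^ n₂ - 1 ∣ (r : ℤ) ^ (n₂ * q) - 1 := by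
      rw [pow_mul]
      exact sub_one_dvd_pow_sub_one _ _
    have e : j + t * ((r : ℤ) ^ (n₂ * q) - 1) = (j + t' * ((r : ℤ) ^ (n₂ * q) - 1)) -
        (t' - t) * ((r : ℤ) ^ (n₂ * q) - 1) := by ring
    rw [e]
    exact ((by exact_mod_cast h1 : (m₁ : ℤ) ∣ m₂).trans hj).sub (h3.trans (mul_dvd_mul_left _ h4))

end Group

/-! ### The arithmetic of the numbers `U x d` -/

section Arith

variable {m n r : ℕ}

/-- the product of the prime powers `p^(v_p d)` over the primes `p ∣ m` with `r^x ≢ 1 (mod p)` -/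
def U (m r x d : ℕ) : ℕ :=
  ∏ p ∈ m.primeFactors, if r ^ x ≡ 1 [MOD p] then 1 else p ^ d.factorization p

theorem eq_prod {d : ℕ} (hm : m ≠ 0) (hd : d ∣ m) :
    d = ∏ p ∈ m.primeFactors, p ^ d.factorization p := by
  have hd0 : d ≠ 0 := ne_zero_of_dvd_ne_zero hm hd
  conv_lhs => rw [← Nat.prod_factorization_pow_eq_self hd0]
  rw [Finsupp.prod_of_support_subset _ (s := m.primeFactors)]
  · rw [Nat.support_factorization]
    exact Nat.primeFactors_mono hd hm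
  · intro p _
    exact pow_zero p

theorem U_dvd_self (hA : Admissible m n r) {x d : ℕ} (hd : d ∣ m) : U m r x d ∣ d := by
  conv_rhs => rw [eq_prod hA.pos_m.ne' hd]
  refine Finset.prod_dvd_prod_of_dvd _ _ fun p _ => ?_
  split_ifs
  · exact one_dvd _
  · exact dvd_rfl

theorem U_mono (hA : Admissible m n r) {x d d' : ℕ} (hd : d ∣ d') (hd' : d' ∣ m) :
    U m r x d ∣ U m r x d' := by
  have hd0' : d' ≠ 0 := ne_zero_of_dvd_ne_zero hA.pos_m.ne' hd'
  have hd0 : d ≠ 0 := ne_zero_of_dvd_ne_zero hd0' hd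
  refine Finset.prod_dvd_prod_of_dvd _ _ fun p _ => ?_
  split_ifs
  · exact dvd_rfl
  · exact pow_dvd_pow _ ((Nat.factorization_le_iff_dvd hd0 hd0').mpr hd p)

theorem U_pos (x d : ℕ) : 0 < U m r x d := by
  refine Finset.prod_pos fun p hp => ?_
  split_ifs
  · exact one_pos
  · exact pow_pos (Nat.prime_of_mem_primeFactors hp).pos _

/-- lifting -/
theorem lift (hA : Admissible m n r) {x d p : ℕ} (hx : x ∣ n) (hd : d ∣ m)
    (hp : p ∈ m.primeFactors) (h : r ^ x ≡ 1 [MOD p]) :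
    ((p ^ d.factorization p : ℕ) : ℤ) ∣ (r : ℤ) ^ x - 1 := by
  have hpp := Nat.prime_of_mem_primeFactors hp
  have hd0 : d ≠ 0 := ne_zero_of_dvd_ne_zero hA.pos_m.ne' hd
  obtain ⟨k, hk⟩ := hx
  have h1 : ((p ^ d.factorization p : ℕ) : ℤ) ∣ (r : ℤ) ^ n - 1 := by
    refine dvd_trans ?_ (r_pow hA)
    exact_mod_cast (Nat.ordProj_dvd d p).trans hd
  have h2 : (r : ℤ) ^ n - 1 = (∑ l ∈ Finset.range k, ((r : ℤ) ^ x) ^ l) * ((r : ℤ) ^ x - 1) := by
    rw [geom_sum_mul, hk, pow_mul]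
  have h3 : (p : ℤ) ∣ (r : ℤ) ^ x - 1 := by
    have := Nat.modEq_iff_dvd.mp h.symm
    push_cast at this
    exact this
  have h4 : IsCoprime ((p ^ d.factorization p : ℕ) : ℤ)
      (∑ l ∈ Finset.range k, ((r : ℤ) ^ x) ^ l) := by
    push_cast
    apply IsCoprime.pow_left
    rw [Prime.coprime_iff_not_dvd (Nat.prime_iff_prime_int.mp hpp)]
    intro h5
    have h6 : (p : ℤ) ∣ (k : ℤ) := by
      have e : (k : ℤ) = (∑ l ∈ Finset.range k, ((r : ℤ) ^ x) ^ l) -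
          ∑ l ∈ Finset.range k, (((r : ℤ) ^ x) ^ l - 1) := by
        rw [Finset.sum_sub_distrib]
        simp
      rw [e]
      exact h5.sub (Finset.dvd_sum fun l _ => h3.trans (sub_one_dvd_pow_sub_one _ _))
    have h7 : p ∣ n := by
      rw [hk]
      exact (by exact_mod_cast h6 : p ∣ k).mul_left x
    have h8 : p ∣ Nat.gcd m n := Nat.dvd_gcd (Nat.dvd_of_mem_primeFactors hp) h7
    rw [hA.gcd_mn] at h8
    exact hpp.one_lt.ne' (Nat.dvd_one.mp h8)
  rw [h2] at h1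
  exact h4.dvd_of_dvd_mul_left h1

theorem not_dvd_coprime {x p : ℕ} (hp : p.Prime) (h : ¬ r ^ x ≡ 1 [MOD p]) (e : ℕ) :
    IsCoprime ((p ^ e : ℕ) : ℤ) ((r : ℤ) ^ x - 1) := by
  push_cast
  apply IsCoprime.pow_left
  rw [Prime.coprime_iff_not_dvd (Nat.prime_iff_prime_int.mp hp)]
  intro h5
  apply h
  apply Nat.ModEq.symm
  rw [Nat.modEq_iff_dvd]
  push_cast
  exact h5

theorem U_coprime (x d : ℕ) : IsCoprime (U m r x d : ℤ) ((r : ℤ) ^ x - 1) := by
  rw [U, Nat.cast_prod]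
  refine IsCoprime.prod_left fun p hp => ?_
  split_ifs with h
  · rw [Nat.cast_one]
    exact isCoprime_one_left
  · exact not_dvd_coprime (Nat.prime_of_mem_primeFactors hp) h _

theorem pairwise_coprime (f : ℕ → ℕ) (s : Finset ℕ) (hs : ∀ p ∈ s, p.Prime) :
    (s : Set ℕ).Pairwise (Function.onFun IsCoprime fun p => ((p ^ f p : ℕ) : ℤ)) := by
  intro p hp q hq hpq
  show IsCoprime ((p ^ f p : ℕ) : ℤ) ((q ^ f q : ℕ) : ℤ)
  rw [Nat.isCoprime_iff_coprime]
  exact Nat.Coprime.pow _ _ ((Nat.coprime_primes (hs p hp) (hs q hq)).mpr hpq)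

theorem U_iff (hA : Admissible m n r) {x d : ℕ} (hx : x ∣ n) (hd : d ∣ m) (z : ℤ) :
    (d : ℤ) ∣ z * ((r : ℤ) ^ x - 1) ↔ (U m r x d : ℤ) ∣ z := by
  constructor
  · intro h
    have h1 : (U m r x d : ℤ) ∣ z * ((r : ℤ) ^ x - 1) :=
      (by exact_mod_cast U_dvd_self hA hd : (U m r x d : ℤ) ∣ d).trans h
    exact (U_coprime x d).dvd_of_dvd_mul_right h1
  · intro h
    have e : (d : ℤ) = ∏ p ∈ m.primeFactors, ((p ^ d.factorization p : ℕ) : ℤ) := by
      rw [← Nat.cast_prod]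
      exact congrArg _ (eq_prod hA.pos_m.ne' hd)
    rw [e]
    refine Finset.prod_dvd_of_coprime
      (pairwise_coprime _ _ fun p hp => Nat.prime_of_mem_primeFactors hp) fun p hp => ?_
    by_cases hpx : r ^ x ≡ 1 [MOD p]
    · exact (lift hA hx hd hp hpx).mul_left _
    · refine (dvd_trans ?_ h).mul_right _
      rw [U, Nat.cast_prod]
      refine dvd_trans ?_ (Finset.dvd_prod_of_mem _ hp)
      rw [if_neg hpx]

theorem coprime_r (hA : Admissible m n r) : IsCoprime (m : ℤ) (r : ℤ) := by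
  obtain ⟨k, hk⟩ := r_pow hA
  obtain ⟨l, hl⟩ : ∃ l, n = l + 1 := ⟨n - 1, by have := hA.pos_n; omega⟩
  refine ⟨-k, (r : ℤ) ^ l, ?_⟩
  rw [hl, pow_succ] at hk
  linarith

/-- counting residues -/
theorem count_res {u d : ℕ} (hd : d ∣ u) (hu : 0 < u) (t₀ : ℤ) :
    ((Finset.range u).filter fun t : ℕ => (d : ℤ) ∣ (t : ℤ) - t₀).card = u / d := by
  have hd0 : 0 < d := Nat.pos_of_dvd_of_pos hd hu
  have hd1 : (d : ℤ) ≠ 0 := by exact_mod_cast hd0.ne'
  obtain ⟨v, hv⟩ : ∃ v : ℕ, (v : ℤ) = t₀ % d := ⟨(t₀ % d).toNat, Int.toNat_of_nonneg (Int.emod_nonneg _ hd1)⟩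
  have h1 := Nat.count_modEq_card u hd0 v
  rw [Nat.count_eq_card_filter_range, Nat.mod_eq_zero_of_dvd hd] at h1
  simp only [Nat.not_lt_zero, if_false, add_zero] at h1
  rw [← h1]
  congr 1
  ext t
  simp only [Finset.mem_filter]
  refine and_congr_right fun _ => ?_
  rw [Nat.ModEq.comm, Nat.modEq_iff_dvd, hv]
  have h2 : (d : ℤ) ∣ t₀ - t₀ % d := Int.dvd_self_sub_emod
  constructor
  · intro h3
    have e : (t : ℤ) - t₀ % d = (t - t₀) + (t₀ - t₀ % d) := by ring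
    rw [e]
    exact h3.add h2
  · intro h3
    have e : (t : ℤ) - t₀ = (t - t₀ % d) - (t₀ - t₀ % d) := by ring
    rw [e]
    exact h3.sub h2

end Arith

/-! ### Permutability -/

section Perm

variable {m n r : ℕ} {G : Type} [Group G] {a b : G}

theorem K_le' (h : IsZM m n r a b) (hA : Admissible m n r) {m₁ n₁ m₂ n₂ : ℕ} (hm₁ : m₁ ∣ m)
    (hn₁ : n₁ ∣ n) (hm₂ : m₂ ∣ m) (hn₂ : n₂ ∣ n) {t t' : ℤ} :
    K h hA m₂ n₂ t' ≤ K h hA m₁ n₁ t ↔ m₁ ∣ m₂ ∧ n₁ ∣ n₂ ∧ (U m r n₂ m₁ : ℤ) ∣ t' - t := by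
  rw [K_le h hA hm₁ hn₁ hm₂ hn₂, U_iff hA hn₂ hm₁]

theorem K_congr (h : IsZM m n r a b) (hA : Admissible m n r) {m₁ n₁ : ℕ} (hm₁ : m₁ ∣ m)
    (hn₁ : n₁ ∣ n) {t t' : ℤ} (ht : (U m r n₁ m₁ : ℤ) ∣ t' - t) :
    K h hA m₁ n₁ t' = K h hA m₁ n₁ t := by
  apply le_antisymm
  · exact (K_le' h hA hm₁ hn₁ hm₁ hn₁).mpr ⟨dvd_rfl, dvd_rfl, ht⟩
  · refine (K_le' h hA hm₁ hn₁ hm₁ hn₁).mpr ⟨dvd_rfl, dvd_rfl, ?_⟩
    rw [← neg_sub]
    exact ht.neg_right

theorem K_inj (h : IsZM m n r a b) (hA : Admissible m n r) {m₁ n₁ m₂ n₂ : ℕ} (hm₁ : m₁ ∣ m)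
    (hn₁ : n₁ ∣ n) (hm₂ : m₂ ∣ m) (hn₂ : n₂ ∣ n) {t₁ t₂ : ℕ} (ht₁ : t₁ < U m r n₁ m₁)
    (ht₂ : t₂ < U m r n₂ m₂) (heq : K h hA m₁ n₁ t₁ = K h hA m₂ n₂ t₂) :
    m₁ = m₂ ∧ n₁ = n₂ ∧ t₁ = t₂ := by
  obtain ⟨h1, h2, h3⟩ := (K_le' h hA hm₂ hn₂ hm₁ hn₁).mp heq.le
  obtain ⟨h1', h2', h3'⟩ := (K_le' h hA hm₁ hn₁ hm₂ hn₂).mp heq.ge
  obtain rfl := Nat.dvd_antisymm h1 h1'
  obtain rfl := Nat.dvd_antisymm h2 h2'
  refine ⟨rfl, rfl, ?_⟩
  rw [← Int.modEq_iff_dvd, Int.natCast_modEq_iff] at h3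
  have := h3.eq_of_lt_of_lt ht₂ ht₁
  exact this.symm

theorem perm_of_eq (h : IsZM m n r a b) (hA : Admissible m n r) {m₁ n₁ m₂ n₂ : ℕ} (t : ℤ) :
    (K h hA m₁ n₁ t : Set G) * K h hA m₂ n₂ t ⊆ (K h hA m₂ n₂ t : Set G) * K h hA m₁ n₁ t := by
  rintro _ ⟨_, hx, _, hy, rfl⟩
  obtain ⟨i, j, rfl, hi, k, hk⟩ := (mem_K' h hA).mp hx
  obtain ⟨i', j', rfl, hi', k', hk'⟩ := (mem_K' h hA).mp hy
  have hN : i + (n - 1) * i = n * i := by
    obtain ⟨l, hl⟩ : ∃ l, n = l + 1 := ⟨n - 1, by have := hA.pos_n; omega⟩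
    rw [hl, Nat.add_sub_cancel]
    ring
  let k₂ : ℤ := k' * (r : ℤ) ^ ((n - 1) * i)
  let k₁ : ℤ := k * (r : ℤ) ^ i'
  let j₂ : ℤ := m₂ * k₂ - t * ((r : ℤ) ^ i' - 1)
  let j₁ : ℤ := m₁ * k₁ - t * ((r : ℤ) ^ i - 1)
  refine ⟨b ^ i' * a ^ j₂, (mem_K' h hA).mpr ⟨i', j₂, rfl, hi', k₂, by simp only [j₂]; ring⟩,
    b ^ i * a ^ j₁, (mem_K' h hA).mpr ⟨i, j₁, rfl, hi, k₁, by simp only [j₁]; ring⟩, ?_⟩
  show b ^ i' * a ^ j₂ * (b ^ i * a ^ j₁) = b ^ i * a ^ j * (b ^ i' * a ^ j')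
  rw [E_mul h, E_mul h, E_eq h hA]
  refine ⟨by rw [add_comm], ?_⟩
  have e1 : (r : ℤ) ^ (n * i) = (r : ℤ) ^ ((n - 1) * i) * (r : ℤ) ^ i := by
    rw [← pow_add, ← hN, add_comm]
  have e : j₂ * (r : ℤ) ^ i + j₁ - (j * (r : ℤ) ^ i' + j') =
      m₂ * k' * ((r : ℤ) ^ (n * i) - 1) := by
    rw [e1]
    have hj : j = m₁ * k - t * ((r : ℤ) ^ i - 1) := by linarith
    have hj' : j' = m₂ * k' - t * ((r : ℤ) ^ i' - 1) := by linarith
    simp only [j₂, j₁, k₂, k₁, hj, hj']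
    ring
  rw [e]
  exact (r_pow_mul hA i).mul_left _

theorem perm_iff (h : IsZM m n r a b) (hA : Admissible m n r) {m₁ n₁ m₂ n₂ : ℕ} (hm₁ : m₁ ∣ m)
    (hn₁ : n₁ ∣ n) (hm₂ : m₂ ∣ m) (hn₂ : n₂ ∣ n) {t₁ t₂ : ℤ} :
    (K h hA m₁ n₁ t₁ : Set G) * K h hA m₂ n₂ t₂ = (K h hA m₂ n₂ t₂ : Set G) * K h hA m₁ n₁ t₁ ↔
      (Nat.gcd (U m r n₁ m₁) (U m r n₂ m₂) : ℤ) ∣ t₁ - t₂ := by
  constructor
  · intro hperm
    set D := Nat.gcd (U m r n₁ m₁) (U m r n₂ m₂) with hD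
    have hD1 : D ∣ U m r n₁ m₁ := Nat.gcd_dvd_left _ _
    have hD2 : D ∣ U m r n₂ m₂ := Nat.gcd_dvd_right _ _
    have hDm1 : (D : ℤ) ∣ m₁ := by exact_mod_cast hD1.trans (U_dvd_self hA hm₁)
    have hDm2 : (D : ℤ) ∣ m₂ := by exact_mod_cast hD2.trans (U_dvd_self hA hm₂)
    have hDm : (D : ℤ) ∣ m := hDm1.trans (by exact_mod_cast hm₁)
    have hc1 : IsCoprime (D : ℤ) ((r : ℤ) ^ n₁ - 1) :=
      (U_coprime n₁ m₁).of_isCoprime_of_dvd_left (by exact_mod_cast hD1)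
    have hc2 : IsCoprime (D : ℤ) ((r : ℤ) ^ n₂ - 1) :=
      (U_coprime n₂ m₂).of_isCoprime_of_dvd_left (by exact_mod_cast hD2)
    have hcr : IsCoprime (D : ℤ) (r : ℤ) := (coprime_r hA).of_isCoprime_of_dvd_left hDm
    obtain ⟨w', w, hw⟩ := hc1.mul_right hc2
    -- the subgroup `K₁ K₂`
    let S : Subgroup G :=
      { carrier := (K h hA m₁ n₁ t₁ : Set G) * K h hA m₂ n₂ t₂
        one_mem' := ⟨1, one_mem _, 1, one_mem _, mul_one 1⟩
        mul_mem' := by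
          rintro _ _ ⟨x, hx, y, hy, rfl⟩ ⟨x', hx', y', hy', rfl⟩
          have : y * x' ∈ (K h hA m₁ n₁ t₁ : Set G) * K h hA m₂ n₂ t₂ := by
            rw [hperm]
            exact ⟨y, hy, x', hx', rfl⟩
          obtain ⟨x'', hx'', y'', hy'', e⟩ := this
          refine ⟨x * x'', mul_mem hx hx'', y'' * y', mul_mem hy'' hy', ?_⟩
          have e' : x'' * y'' = y * x' := e
          show x * x'' * (y'' * y') = x * y * (x' * y')
          rw [mul_assoc, ← mul_assoc x'', e']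
          simp only [mul_assoc]
        inv_mem' := by
          rintro _ ⟨x, hx, y, hy, rfl⟩
          show (x * y)⁻¹ ∈ (K h hA m₁ n₁ t₁ : Set G) * K h hA m₂ n₂ t₂
          rw [hperm, mul_inv_rev]
          exact ⟨y⁻¹, inv_mem hy, x⁻¹, inv_mem hx, rfl⟩ }
    let s₁ : ℤ := -(t₁ * ((r : ℤ) ^ n₁ - 1))
    let s₂ : ℤ := -(t₂ * ((r : ℤ) ^ n₂ - 1))
    have hx1 : b ^ n₁ * a ^ s₁ ∈ S :=
      ⟨_, (mem_K h hA hm₁ hn₁).mpr ⟨dvd_rfl, by simp only [s₁]; rw [neg_add_cancel]; exact dvd_zero _⟩,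
        1, one_mem _, mul_one _⟩
    have hx2 : b ^ n₂ * a ^ s₂ ∈ S :=
      ⟨1, one_mem _, _,
        (mem_K h hA hm₂ hn₂).mpr ⟨dvd_rfl, by simp only [s₂]; rw [neg_add_cancel]; exact dvd_zero _⟩,
        one_mul _⟩
    have hcomm : a ^ (-((t₁ - t₂) * (((r : ℤ) ^ n₁ - 1) * ((r : ℤ) ^ n₂ - 1)))) ∈ S := by
      have e1 := E_mul h n₁ n₂ s₁ s₂
      have e2 := E_mul h n₂ n₁ s₂ s₁
      have h3 := mul_mem (inv_mem (mul_mem hx2 hx1)) (mul_mem hx1 hx2)
      rw [e1, e2, add_comm n₂ n₁] at h3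
      have e3 : (b ^ (n₁ + n₂) * a ^ (s₂ * (r : ℤ) ^ n₁ + s₁))⁻¹ *
          (b ^ (n₁ + n₂) * a ^ (s₁ * (r : ℤ) ^ n₂ + s₂)) =
          a ^ (-(s₂ * (r : ℤ) ^ n₁ + s₁) + (s₁ * (r : ℤ) ^ n₂ + s₂)) := by
        rw [mul_inv_rev, ← zpow_neg, mul_assoc, inv_mul_cancel_left, ← zpow_add]
      rw [e3] at h3
      have e4 : -(s₂ * (r : ℤ) ^ n₁ + s₁) + (s₁ * (r : ℤ) ^ n₂ + s₂) =
          -((t₁ - t₂) * (((r : ℤ) ^ n₁ - 1) * ((r : ℤ) ^ n₂ - 1))) := by
        simp only [s₁, s₂]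
        ring
      rw [e4] at h3
      exact h3
    have hz := zpow_mem hcomm w
    rw [← zpow_mul] at hz
    obtain ⟨x, hx, y, hy, hxy⟩ := hz
    obtain ⟨i, j, rfl, hi, hj⟩ := (mem_K' h hA).mp hx
    obtain ⟨i', j', rfl, hi', hj'⟩ := (mem_K' h hA).mp hy
    have hxy' : b ^ (i + i') * a ^ (j * (r : ℤ) ^ i' + j') =
        b ^ 0 * a ^ (-((t₁ - t₂) * (((r : ℤ) ^ n₁ - 1) * ((r : ℤ) ^ n₂ - 1))) * w) := by
      rw [← E_mul h, pow_zero, one_mul]
      exact hxy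
    rw [E_eq h hA] at hxy'
    obtain ⟨hii, hjj⟩ := hxy'
    have hr := r_congr hA hii
    rw [pow_zero, pow_add] at hr
    -- everything modulo `D`
    have g1 : (D : ℤ) ∣ j + t₁ * ((r : ℤ) ^ i - 1) := hDm1.trans hj
    have g2 : (D : ℤ) ∣ j' + t₂ * ((r : ℤ) ^ i' - 1) := hDm2.trans hj'
    have g3 := hDm.trans hjj
    have g4 := hDm.trans hr
    have g5 : (D : ℤ) ∣ (t₁ - t₂) * (r : ℤ) ^ i' := by
      have e : (t₁ - t₂) * (r : ℤ) ^ i' =
          -((j + t₁ * ((r : ℤ) ^ i - 1)) * (r : ℤ) ^ i') - (j' + t₂ * ((r : ℤ) ^ i' - 1)) +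
          (j * (r : ℤ) ^ i' + j' -
            -((t₁ - t₂) * (((r : ℤ) ^ n₁ - 1) * ((r : ℤ) ^ n₂ - 1))) * w) +
          t₁ * ((r : ℤ) ^ i * (r : ℤ) ^ i' - 1) + (t₁ - t₂) * (w' * D) := by
        have hw' : w * (((r : ℤ) ^ n₁ - 1) * ((r : ℤ) ^ n₂ - 1)) = 1 - w' * D := by linarith
        have e6 : (t₁ - t₂) * (((r : ℤ) ^ n₁ - 1) * ((r : ℤ) ^ n₂ - 1)) * w =
            (t₁ - t₂) * (1 - w' * D) := by
          rw [← hw']
          ring
        rw [neg_mul, e6]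
        ring
      rw [e]
      refine ((((g1.mul_right _).neg_right).sub g2).add g3 |>.add (g4.mul_left _)).add ?_
      exact (Dvd.intro_left _ rfl).mul_left _
    exact (hcr.pow_right).dvd_of_dvd_mul_right g5
  · intro hdvd
    obtain ⟨k, hk⟩ := hdvd
    have hb := Int.gcd_eq_gcd_ab (U m r n₁ m₁ : ℤ) (U m r n₂ m₂ : ℤ)
    rw [Int.gcd_natCast_natCast] at hb
    rw [hb] at hk
    set x := Int.gcdA (U m r n₁ m₁ : ℤ) (U m r n₂ m₂ : ℤ)
    set y := Int.gcdB (U m r n₁ m₁ : ℤ) (U m r n₂ m₂ : ℤ)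
    let t : ℤ := t₁ - (U m r n₁ m₁ : ℤ) * x * k
    have e1 : K h hA m₁ n₁ t₁ = K h hA m₁ n₁ t := by
      apply K_congr h hA hm₁ hn₁
      refine ⟨x * k, ?_⟩
      simp only [t]
      ring
    have e2 : K h hA m₂ n₂ t₂ = K h hA m₂ n₂ t := by
      apply K_congr h hA hm₂ hn₂
      refine ⟨-(y * k), ?_⟩
      have : t₂ = t₁ - ((U m r n₁ m₁ : ℤ) * x + (U m r n₂ m₂ : ℤ) * y) * k := by linarith
      simp only [t]
      rw [this]
      ring
    rw [e1, e2]
    exact Set.Subset.antisymm (perm_of_eq h hA t) (perm_of_eq h hA t)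

end Perm

/-! ### Sums over divisors as products over primes -/

section Prod

theorem sum_divisors_prod {m : ℕ} (hm : m ≠ 0) (w : ℕ → ℕ → ℕ) :
    ∑ d ∈ m.divisors, ∏ p ∈ m.primeFactors, w p (d.factorization p) =
      ∏ p ∈ m.primeFactors, ∑ i ∈ Finset.range (m.factorization p + 1), w p i := by
  rw [Finset.prod_sum]
  symm
  have key : ∀ g : ∀ p ∈ m.primeFactors, ℕ,
      ((Finsupp.indicator m.primeFactors g).prod (· ^ ·)).factorization =
        Finsupp.indicator m.primeFactors g := by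
    intro g
    refine Nat.prod_pow_factorization_eq_self fun p hp => ?_
    exact Nat.prime_of_mem_primeFactors (Finsupp.support_indicator_subset _ _ hp)
  have hne : ∀ g : ∀ p ∈ m.primeFactors, ℕ,
      (Finsupp.indicator m.primeFactors g).prod (· ^ ·) ≠ 0 := by
    intro g
    refine Finset.prod_ne_zero_iff.mpr fun p hp => ?_
    exact pow_ne_zero _
      (Nat.prime_of_mem_primeFactors (Finsupp.support_indicator_subset _ _ hp)).ne_zero
  refine Finset.sum_bij'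
    (i := fun (g : ∀ p ∈ m.primeFactors, ℕ) _ => (Finsupp.indicator m.primeFactors g).prod (· ^ ·))
    (j := fun d _ => fun p _ => d.factorization p) ?_ ?_ ?_ ?_ ?_
  · intro g hg
    rw [Finset.mem_pi] at hg
    rw [Nat.mem_divisors]
    refine ⟨?_, hm⟩
    rw [← Nat.factorization_le_iff_dvd (hne g) hm, key]
    intro p
    by_cases hp : p ∈ m.primeFactors
    · rw [Finsupp.indicator_of_mem hp]
      have := hg p hp
      rw [Finset.mem_range] at this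
      omega
    · rw [Finsupp.indicator_of_notMem hp]
      exact Nat.zero_le _
  · intro d hd
    rw [Nat.mem_divisors] at hd
    rw [Finset.mem_pi]
    intro p _
    rw [Finset.mem_range]
    have := (Nat.factorization_le_iff_dvd (ne_zero_of_dvd_ne_zero hm hd.1) hm).mpr hd.1 p
    omega
  · intro g _
    funext p hp
    rw [key, Finsupp.indicator_of_mem hp]
  · intro d hd
    rw [Nat.mem_divisors] at hd
    have hd0 := ne_zero_of_dvd_ne_zero hm hd.1
    have e : Finsupp.indicator m.primeFactors (fun p _ => d.factorization p) = d.factorization := by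
      ext p
      by_cases hp : p ∈ m.primeFactors
      · rw [Finsupp.indicator_of_mem hp]
      · rw [Finsupp.indicator_of_notMem hp]
        symm
        rw [← Finsupp.notMem_support_iff, Nat.support_factorization]
        exact fun h => hp (Nat.primeFactors_mono hd.1 hm h)
    show (Finsupp.indicator m.primeFactors (fun p _ => d.factorization p)).prod (· ^ ·) = d
    rw [e, Nat.prod_factorization_pow_eq_self hd0]
  · intro g _
    rw [key, ← Finset.prod_attach m.primeFactors]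
    refine Finset.prod_congr rfl fun x _ => ?_
    rw [Finsupp.indicator_of_mem x.2]

theorem gcd_prod (s : Finset ℕ) (A B : ℕ → ℕ) (hs : ∀ p ∈ s, p.Prime) :
    Nat.gcd (∏ p ∈ s, p ^ A p) (∏ p ∈ s, p ^ B p) = ∏ p ∈ s, p ^ min (A p) (B p) := by
  induction s using Finset.induction_on with
  | empty => simp
  | insert q s hq ih =>
    rw [Finset.prod_insert hq, Finset.prod_insert hq, Finset.prod_insert hq]
    have hqp : q.Prime := hs q (Finset.mem_insert_self q s)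
    have hcop : ∀ (C : ℕ → ℕ) (e : ℕ), Nat.Coprime (q ^ e) (∏ p ∈ s, p ^ C p) := by
      intro C e
      refine Nat.Coprime.prod_right fun p hp => Nat.Coprime.pow _ _ ?_
      rw [Nat.coprime_primes hqp (hs p (Finset.mem_insert_of_mem hp))]
      rintro rfl
      exact hq hp
    rw [Nat.Coprime.gcd_mul _ (hcop B (B q)), Nat.Coprime.gcd_mul_left_cancel _ (hcop B (A q)),
      Nat.Coprime.gcd_mul_right_cancel _ ((hcop A (B q)).symm),
      ih fun p hp => hs p (Finset.mem_insert_of_mem hp)]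
    congr 1
    rcases le_total (A q) (B q) with hle | hle
    · rw [min_eq_left hle, Nat.gcd_eq_left (pow_dvd_pow q hle)]
    · rw [min_eq_right hle, Nat.gcd_eq_right (pow_dvd_pow q hle)]

end Prod

/-! ### The local factors -/

section Local

variable {m n r : ℕ}

theorem U_eq (x d : ℕ) : U m r x d =
    ∏ p ∈ m.primeFactors, p ^ (if r ^ x ≡ 1 [MOD p] then 0 else d.factorization p) := by
  refine Finset.prod_congr rfl fun p _ => ?_
  split_ifs
  · rw [pow_zero]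
  · rfl

/-- the weight of a pair of exponents -/
def wt (r x y f p i j : ℕ) : ℕ :=
  if f ≤ i then
    p ^ (if r ^ x ≡ 1 [MOD p] then 0 else i - f) *
      p ^ ((if r ^ y ≡ 1 [MOD p] then 0 else j) -
        min (if r ^ x ≡ 1 [MOD p] then 0 else i) (if r ^ y ≡ 1 [MOD p] then 0 else j))
  else 0

theorem U_div (hA : Admissible m n r) {x d m₁ : ℕ} (hd : d ∣ m) (h1 : m₁ ∣ d) :
    U m r x d / U m r x m₁ = ∏ p ∈ m.primeFactors,
      p ^ (if r ^ x ≡ 1 [MOD p] then 0 else d.factorization p - m₁.factorization p) := by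
  have hd0 : d ≠ 0 := ne_zero_of_dvd_ne_zero hA.pos_m.ne' hd
  have hm₁0 : m₁ ≠ 0 := ne_zero_of_dvd_ne_zero hd0 h1
  apply Nat.div_eq_of_eq_mul_left (U_pos x m₁)
  rw [U_eq, U_eq, ← Finset.prod_mul_distrib]
  refine Finset.prod_congr rfl fun p _ => ?_
  rw [← pow_add]
  congr 1
  have := (Nat.factorization_le_iff_dvd hm₁0 hd0).mpr h1 p
  split_ifs <;> omega

theorem U_gcd (x y d e : ℕ) : U m r y e / Nat.gcd (U m r x d) (U m r y e) =
    ∏ p ∈ m.primeFactors, p ^ ((if r ^ y ≡ 1 [MOD p] then 0 else e.factorization p) -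
      min (if r ^ x ≡ 1 [MOD p] then 0 else d.factorization p)
        (if r ^ y ≡ 1 [MOD p] then 0 else e.factorization p)) := by
  have hpos : 0 < Nat.gcd (U m r x d) (U m r y e) := Nat.gcd_pos_of_pos_left _ (U_pos x d)
  apply Nat.div_eq_of_eq_mul_left hpos
  rw [U_eq, U_eq, gcd_prod _ _ _ fun p hp => Nat.prime_of_mem_primeFactors hp,
    ← Finset.prod_mul_distrib]
  refine Finset.prod_congr rfl fun p _ => ?_
  rw [← pow_add]
  congr 1
  omega

theorem wt_prod (hA : Admissible m n r) {x y d e m₁ : ℕ} (hm₁ : m₁ ∣ m) (hd : d ∣ m) :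
    (if m₁ ∣ d then (U m r x d / U m r x m₁) *
      (U m r y e / Nat.gcd (U m r x d) (U m r y e)) else 0) =
    ∏ p ∈ m.primeFactors, wt r x y (m₁.factorization p) p (d.factorization p)
      (e.factorization p) := by
  have hd0 : d ≠ 0 := ne_zero_of_dvd_ne_zero hA.pos_m.ne' hd
  have hm₁0 : m₁ ≠ 0 := ne_zero_of_dvd_ne_zero hA.pos_m.ne' hm₁
  split_ifs with h1
  · rw [U_div hA hd h1, U_gcd, ← Finset.prod_mul_distrib]
    refine Finset.prod_congr rfl fun p _ => ?_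
    rw [wt, if_pos ((Nat.factorization_le_iff_dvd hm₁0 hd0).mpr h1 p)]
  · have h2 : ∃ p, ¬ m₁.factorization p ≤ d.factorization p := by
      by_contra hcon
      push Not at hcon
      exact h1 ((Nat.factorization_le_iff_dvd hm₁0 hd0).mp hcon)
    obtain ⟨p, hp⟩ := h2
    symm
    apply Finset.prod_eq_zero (i := p)
    · have h3 : p ∈ m₁.primeFactors := by
        rw [← Nat.support_factorization, Finsupp.mem_support_iff]
        omega
      exact Nat.primeFactors_mono hm₁ hA.pos_m.ne' h3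
    · rw [wt, if_neg hp]

/-- the local factor -/
def F (r x y p e f : ℕ) : ℕ :=
  if r ^ x ≡ 1 [MOD p] then
    if r ^ y ≡ 1 [MOD p] then (e - f + 1) * (e + 1)
    else (e - f + 1) * ∑ k ∈ Finset.range (e + 1), p ^ k
  else
    if r ^ y ≡ 1 [MOD p] then (e + 1) * ∑ k ∈ Finset.range (e - f + 1), p ^ k
    else ∑ k ∈ Finset.range (e - f + 1), (2 * k + f + 1) * p ^ k

theorem sum_shift (g : ℕ → ℕ) (f c : ℕ) :
    ∑ i ∈ Finset.range (f + c + 1), (if f ≤ i then g (i - f) else 0) =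
      ∑ i ∈ Finset.range (c + 1), g i := by
  rw [add_assoc, Finset.sum_range_add]
  have e1 : ∑ x ∈ Finset.range f, (if f ≤ x then g (x - f) else 0) = 0 := by
    refine Finset.sum_eq_zero fun i hi => ?_
    rw [Finset.mem_range] at hi
    rw [if_neg (by omega)]
  rw [e1, zero_add]
  refine Finset.sum_congr rfl fun i _ => ?_
  rw [if_pos (by omega), Nat.add_sub_cancel_left]

theorem local_sum (x y p e f : ℕ) (hf : f ≤ e) :
    ∑ i ∈ Finset.range (e + 1), ∑ j ∈ Finset.range (e + 1), wt r x y f p i j =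
      F r x y p e f := by
  obtain ⟨c, rfl⟩ : ∃ c, e = f + c := ⟨e - f, by omega⟩
  rw [F, Nat.add_sub_cancel_left]
  by_cases hx : r ^ x ≡ 1 [MOD p]
  · by_cases hy : r ^ y ≡ 1 [MOD p]
    · rw [if_pos hx, if_pos hy]
      have e1 : ∀ i j, wt r x y f p i j = if f ≤ i then 1 else 0 := by
        intro i j
        simp only [wt, if_pos hx, if_pos hy]
        simp
      simp only [e1]
      simp only [Finset.sum_const, Finset.card_range, smul_eq_mul, ← Finset.mul_sum]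
      rw [sum_shift (fun _ => 1)]
      simp
      ring
    · rw [if_pos hx, if_neg hy]
      have e1 : ∀ i j, wt r x y f p i j = if f ≤ i then p ^ j else 0 := by
        intro i j
        simp only [wt, if_pos hx, if_neg hy]
        simp
      simp only [e1]
      rw [Finset.sum_comm]
      have e2 : ∀ j, ∑ i ∈ Finset.range (f + c + 1), (if f ≤ i then p ^ j else 0) =
          (c + 1) * p ^ j := by
        intro j
        rw [sum_shift (fun _ => p ^ j)]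
        simp
      simp only [e2, ← Finset.mul_sum]
  · by_cases hy : r ^ y ≡ 1 [MOD p]
    · rw [if_neg hx, if_pos hy]
      have e1 : ∀ i j, wt r x y f p i j = if f ≤ i then p ^ (i - f) else 0 := by
        intro i j
        simp only [wt, if_neg hx, if_pos hy]
        simp
      simp only [e1]
      simp only [Finset.sum_const, Finset.card_range, smul_eq_mul, ← Finset.mul_sum]
      rw [sum_shift (fun k => p ^ k)]
    · rw [if_neg hx, if_neg hy]
      have e1 : ∀ i j, wt r x y f p i j = if f ≤ i then p ^ (max i j - f) else 0 := by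
        intro i j
        simp only [wt, if_neg hx, if_neg hy]
        split_ifs with h
        · rw [← pow_add]
          congr 1
          omega
        · rfl
      simp only [e1]
      induction c with
      | zero =>
        rw [Finset.sum_range_succ, Finset.sum_eq_zero, zero_add]
        · rw [add_zero]
          have : ∀ j ∈ Finset.range (f + 1), (if f ≤ f then p ^ (max f j - f) else 0) = 1 := by
            intro j hj
            rw [Finset.mem_range] at hj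
            rw [if_pos le_rfl, max_eq_left (by omega), Nat.sub_self, pow_zero]
          rw [Finset.sum_congr rfl this]
          simp
        · intro i hi
          rw [Finset.mem_range] at hi
          refine Finset.sum_eq_zero fun j _ => ?_
          rw [if_neg (by omega)]
      | succ c ih =>
        have ih' := ih (by omega)
        rw [Finset.sum_range_succ _ (c + 1), ← ih']
        have hs : f + (c + 1) + 1 = (f + c + 1) + 1 := by ring
        rw [hs, Finset.sum_range_succ _ (f + c + 1)]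
        simp only [Finset.sum_range_succ _ (f + c + 1)]
        rw [Finset.sum_add_distrib]
        have a1 : ∑ i ∈ Finset.range (f + c + 1),
            (if f ≤ i then p ^ (max i (f + c + 1) - f) else 0) = (c + 1) * p ^ (c + 1) := by
          have : ∀ i ∈ Finset.range (f + c + 1),
              (if f ≤ i then p ^ (max i (f + c + 1) - f) else 0) =
              (if f ≤ i then p ^ (c + 1) else 0) := by
            intro i hi
            rw [Finset.mem_range] at hi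
            rw [max_eq_right (by omega), show f + c + 1 - f = c + 1 by omega]
          rw [Finset.sum_congr rfl this, sum_shift (fun _ => p ^ (c + 1))]
          simp
        have a2 : ∑ j ∈ Finset.range (f + c + 1),
            (if f ≤ f + c + 1 then p ^ (max (f + c + 1) j - f) else 0) =
            (f + c + 1) * p ^ (c + 1) := by
          have : ∀ j ∈ Finset.range (f + c + 1),
              (if f ≤ f + c + 1 then p ^ (max (f + c + 1) j - f) else 0) = p ^ (c + 1) := by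
            intro i hi
            rw [Finset.mem_range] at hi
            rw [if_pos (by omega), max_eq_left (by omega), show f + c + 1 - f = c + 1 by omega]
          rw [Finset.sum_congr rfl this]
          simp
        have a3 : (if f ≤ f + c + 1 then p ^ (max (f + c + 1) (f + c + 1) - f) else 0) =
            p ^ (c + 1) := by
          rw [if_pos (by omega), max_self, show f + c + 1 - f = c + 1 by omega]
        rw [a1, a2, a3]
        ring

theorem factor_sum (hA : Admissible m n r) (x y : ℕ) {m₁ : ℕ} (hm₁ : m₁ ∣ m) :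
    ∑ d ∈ m.divisors, ∑ e ∈ m.divisors, (if m₁ ∣ d then (U m r x d / U m r x m₁) *
      (U m r y e / Nat.gcd (U m r x d) (U m r y e)) else 0) =
    ∏ p ∈ m.primeFactors, F r x y p (m.factorization p) (m₁.factorization p) := by
  have hm := hA.pos_m.ne'
  have hm₁0 : m₁ ≠ 0 := ne_zero_of_dvd_ne_zero hm hm₁
  have e1 : ∀ d ∈ m.divisors, ∑ e ∈ m.divisors, (if m₁ ∣ d then (U m r x d / U m r x m₁) *
      (U m r y e / Nat.gcd (U m r x d) (U m r y e)) else 0) =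
      ∏ p ∈ m.primeFactors, ∑ j ∈ Finset.range (m.factorization p + 1),
        wt r x y (m₁.factorization p) p (d.factorization p) j := by
    intro d hd
    rw [Nat.mem_divisors] at hd
    rw [← sum_divisors_prod hm (fun p j => wt r x y (m₁.factorization p) p (d.factorization p) j)]
    refine Finset.sum_congr rfl fun e _ => ?_
    rw [wt_prod hA hm₁ hd.1]
  rw [Finset.sum_congr rfl e1, sum_divisors_prod hm (fun p i =>
    ∑ j ∈ Finset.range (m.factorization p + 1), wt r x y (m₁.factorization p) p i j)]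
  refine Finset.prod_congr rfl fun p _ => ?_
  exact local_sum x y p _ _ ((Nat.factorization_le_iff_dvd hm₁0 hm).mpr hm₁ p)

/-- the local factor for counting subgroups -/
def F1 (r x p e f : ℕ) : ℕ :=
  if r ^ x ≡ 1 [MOD p] then e - f + 1 else ∑ k ∈ Finset.range (e - f + 1), p ^ k

theorem factor_sum1 (hA : Admissible m n r) (x : ℕ) {m₁ : ℕ} (hm₁ : m₁ ∣ m) :
    ∑ d ∈ m.divisors, (if m₁ ∣ d then U m r x d / U m r x m₁ else 0) =
    ∏ p ∈ m.primeFactors, F1 r x p (m.factorization p) (m₁.factorization p) := by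
  have hm := hA.pos_m.ne'
  have hm₁0 : m₁ ≠ 0 := ne_zero_of_dvd_ne_zero hm hm₁
  let w : ℕ → ℕ → ℕ := fun p i => if m₁.factorization p ≤ i then
    (if r ^ x ≡ 1 [MOD p] then 1 else p ^ (i - m₁.factorization p)) else 0
  have e1 : ∀ d ∈ m.divisors, (if m₁ ∣ d then U m r x d / U m r x m₁ else 0) =
      ∏ p ∈ m.primeFactors, w p (d.factorization p) := by
    intro d hd
    rw [Nat.mem_divisors] at hd
    have hd0 : d ≠ 0 := ne_zero_of_dvd_ne_zero hm hd.1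
    split_ifs with h1
    · rw [U_div hA hd.1 h1]
      refine Finset.prod_congr rfl fun p _ => ?_
      simp only [w]
      rw [if_pos ((Nat.factorization_le_iff_dvd hm₁0 hd0).mpr h1 p)]
      split_ifs
      · rw [pow_zero]
      · rfl
    · have h2 : ∃ p, ¬ m₁.factorization p ≤ d.factorization p := by
        by_contra hcon
        push Not at hcon
        exact h1 ((Nat.factorization_le_iff_dvd hm₁0 hd0).mp hcon)
      obtain ⟨p, hp⟩ := h2
      symm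
      apply Finset.prod_eq_zero (i := p)
      · have h3 : p ∈ m₁.primeFactors := by
          rw [← Nat.support_factorization, Finsupp.mem_support_iff]
          omega
        exact Nat.primeFactors_mono hm₁ hm h3
      · simp only [w]
        rw [if_neg hp]
  rw [Finset.sum_congr rfl e1, sum_divisors_prod hm w]
  refine Finset.prod_congr rfl fun p _ => ?_
  have hf := (Nat.factorization_le_iff_dvd hm₁0 hm).mpr hm₁ p
  obtain ⟨c, hc⟩ : ∃ c, m.factorization p = m₁.factorization p + c :=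
    ⟨m.factorization p - m₁.factorization p, by omega⟩
  rw [hc, F1, Nat.add_sub_cancel_left]
  simp only [w]
  rw [sum_shift (fun k => if r ^ x ≡ 1 [MOD p] then 1 else p ^ k)]
  split_ifs
  · simp
  · rfl

end Local

/-! ### Counting -/

section Count

variable {m n r : ℕ} {G : Type} [Group G] {a b : G}

/-- the parameters of the subgroups -/
def T (m n r : ℕ) : Finset (Σ _ : ℕ × ℕ, ℕ) :=
  (m.divisors ×ˢ n.divisors).sigma fun q => Finset.range (U m r q.2 q.1)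

/-- the subgroup with given parameters -/
def Phi (h : IsZM m n r a b) (hA : Admissible m n r) (τ : Σ _ : ℕ × ℕ, ℕ) : Subgroup G :=
  K h hA τ.1.1 τ.1.2 (τ.2 : ℤ)

theorem mem_T {τ : Σ _ : ℕ × ℕ, ℕ} (hA : Admissible m n r) :
    τ ∈ T m n r ↔ (τ.1.1 ∣ m ∧ τ.1.2 ∣ n) ∧ τ.2 < U m r τ.1.2 τ.1.1 := by
  rw [T, Finset.mem_sigma, Finset.mem_product, Nat.mem_divisors, Nat.mem_divisors,
    Finset.mem_range]
  simp [hA.pos_m.ne', hA.pos_n.ne']

theorem Phi_inj (h : IsZM m n r a b) (hA : Admissible m n r) :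
    Set.InjOn (Phi h hA) (T m n r) := by
  rintro ⟨⟨d, x⟩, t⟩ h1 ⟨⟨e, y⟩, t'⟩ h2 heq
  rw [Finset.mem_coe, mem_T hA] at h1 h2
  obtain ⟨h3, h4, h5⟩ := K_inj h hA h1.1.1 h1.1.2 h2.1.1 h2.1.2 h1.2 h2.2 heq
  simp only at h3 h4 h5
  subst h3 h4 h5
  rfl

theorem Phi_surj (h : IsZM m n r a b) (hA : Admissible m n r) (S : Subgroup G) :
    ∃ τ ∈ T m n r, Phi h hA τ = S := by
  obtain ⟨d, x, hd, hx, t, rfl⟩ := exists_K h hA S
  have hU : (U m r x d : ℤ) ≠ 0 := by exact_mod_cast (U_pos x d).ne'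
  have hU' : (0 : ℤ) < U m r x d := by exact_mod_cast U_pos x d
  refine ⟨⟨⟨d, x⟩, (t % U m r x d).toNat⟩, ?_, ?_⟩
  · rw [mem_T hA]
    refine ⟨⟨hd, hx⟩, ?_⟩
    have h1 := Int.emod_lt_of_pos t hU'
    have h2 := Int.emod_nonneg t hU
    show (t % U m r x d).toNat < U m r x d
    omega
  · show K h hA d x (((t % U m r x d).toNat : ℕ) : ℤ) = K h hA d x t
    rw [Int.toNat_of_nonneg (Int.emod_nonneg t hU)]
    apply K_congr h hA hd hx
    rw [← neg_sub]
    exact (Int.dvd_self_sub_emod).neg_right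

open Classical in
theorem card_sub (h : IsZM m n r a b) (hA : Admissible m n r) (Q : Subgroup G → Prop) :
    Nat.card {S : Subgroup G // Q S} = ∑ τ ∈ T m n r, if Q (Phi h hA τ) then 1 else 0 := by
  rw [← Finset.card_filter, ← Set.ncard_coe_finset]
  have e : {S : Subgroup G | Q S} = Phi h hA '' (((T m n r).filter fun τ => Q (Phi h hA τ) :
      Finset _) : Set _) := by
    ext S
    constructor
    · intro hS
      obtain ⟨τ, hτ, rfl⟩ := Phi_surj h hA S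
      exact ⟨τ, by rw [Finset.mem_coe, Finset.mem_filter]; exact ⟨hτ, hS⟩, rfl⟩
    · rintro ⟨τ, hτ, rfl⟩
      rw [Finset.mem_coe, Finset.mem_filter] at hτ
      exact hτ.2
  have e2 : Nat.card {S : Subgroup G // Q S} = ({S : Subgroup G | Q S}).ncard := rfl
  rw [e2, e, Set.InjOn.ncard_image]
  exact (Phi_inj h hA).mono (fun τ hτ => by
    rw [Finset.mem_coe, Finset.mem_filter] at hτ
    exact hτ.1)

open Classical in
theorem card_pair (h : IsZM m n r a b) (hA : Admissible m n r)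
    (Q : Subgroup G → Subgroup G → Prop) :
    Nat.card {p : Subgroup G × Subgroup G // Q p.1 p.2} =
      ∑ τ ∈ T m n r, ∑ τ' ∈ T m n r, if Q (Phi h hA τ) (Phi h hA τ') then 1 else 0 := by
  rw [← Finset.sum_product', ← Finset.card_filter, ← Set.ncard_coe_finset]
  have e : {p : Subgroup G × Subgroup G | Q p.1 p.2} =
      (Prod.map (Phi h hA) (Phi h hA)) '' ((((T m n r) ×ˢ (T m n r)).filter fun τ =>
        Q (Phi h hA τ.1) (Phi h hA τ.2) : Finset _) : Set _) := by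
    ext ⟨S, S'⟩
    constructor
    · intro hS
      obtain ⟨τ, hτ, rfl⟩ := Phi_surj h hA S
      obtain ⟨τ', hτ', rfl⟩ := Phi_surj h hA S'
      refine ⟨(τ, τ'), ?_, rfl⟩
      rw [Finset.mem_coe, Finset.mem_filter, Finset.mem_product]
      exact ⟨⟨hτ, hτ'⟩, hS⟩
    · rintro ⟨⟨τ, τ'⟩, hτ, heq⟩
      rw [Finset.mem_coe, Finset.mem_filter, Finset.mem_product] at hτ
      rw [← heq]
      exact hτ.2
  have e2 : Nat.card {p : Subgroup G × Subgroup G // Q p.1 p.2} =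
    ({p : Subgroup G × Subgroup G | Q p.1 p.2}).ncard := rfl
  rw [e2, e, Set.InjOn.ncard_image]
  rintro ⟨τ, τ'⟩ h1 ⟨σ, σ'⟩ h2 heq
  rw [Finset.mem_coe, Finset.mem_filter, Finset.mem_product] at h1 h2
  have h3 := Prod.mk.inj heq
  exact Prod.ext (Phi_inj h hA h1.1.1 h2.1.1 h3.1) (Phi_inj h hA h1.1.2 h2.1.2 h3.2)

open Classical in
theorem inner1 (h : IsZM m n r a b) (hA : Admissible m n r) {m₁ n₁ d x : ℕ} (hm₁ : m₁ ∣ m)
    (hn₁ : n₁ ∣ n) (hd : d ∣ m) (hx : x ∣ n) (t₀ : ℤ) :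
    ∑ t ∈ Finset.range (U m r x d),
      (if K h hA d x (t : ℤ) ≤ K h hA m₁ n₁ t₀ then 1 else 0) =
    if n₁ ∣ x then (if m₁ ∣ d then U m r x d / U m r x m₁ else 0) else 0 := by
  have e1 : ∀ t : ℕ, (if K h hA d x (t : ℤ) ≤ K h hA m₁ n₁ t₀ then 1 else 0) =
      if n₁ ∣ x then (if m₁ ∣ d then (if (U m r x m₁ : ℤ) ∣ (t : ℤ) - t₀ then 1 else 0) else 0)
      else 0 := by
    intro t
    rw [K_le' h hA hm₁ hn₁ hd hx]
    split_ifs <;> simp_all
  simp only [e1]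
  split_ifs with h1 h2
  · rw [← Finset.card_filter]
    exact count_res (U_mono hA h2 hd) (U_pos x d) t₀
  · simp
  · simp

theorem count1 (h : IsZM m n r a b) (hA : Admissible m n r) {m₁ n₁ : ℕ} (hm₁ : m₁ ∣ m)
    (hn₁ : n₁ ∣ n) (t₀ : ℤ) :
    Nat.card {S : Subgroup G // S ≤ K h hA m₁ n₁ t₀} =
      ∑ x ∈ n.divisors.filter (n₁ ∣ ·), ∏ p ∈ m.primeFactors,
        F1 r x p (m.factorization p) (m₁.factorization p) := by
  classical
  rw [card_sub h hA, T, Finset.sum_sigma, Finset.sum_product_right, Finset.sum_filter]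
  refine Finset.sum_congr rfl fun x hx => ?_
  rw [Nat.mem_divisors] at hx
  rw [← factor_sum1 hA x hm₁]
  have e1 : ∀ d ∈ m.divisors, ∑ t ∈ Finset.range (U m r (d, x).2 (d, x).1),
      (if Phi h hA ⟨(d, x), t⟩ ≤ K h hA m₁ n₁ t₀ then 1 else 0) =
      if n₁ ∣ x then (if m₁ ∣ d then U m r x d / U m r x m₁ else 0) else 0 := by
    intro d hd
    rw [Nat.mem_divisors] at hd
    exact inner1 h hA hm₁ hn₁ hd.1 hx.1 t₀
  rw [Finset.sum_congr rfl e1]
  split_ifs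
  · rfl
  · simp

theorem count2 (h : IsZM m n r a b) (hA : Admissible m n r) {m₁ n₁ : ℕ} (hm₁ : m₁ ∣ m)
    (hn₁ : n₁ ∣ n) (t₀ : ℤ) :
    Nat.card {p : Subgroup G × Subgroup G // p.1 ≤ K h hA m₁ n₁ t₀ ∧
      (p.1 : Set G) * p.2 = (p.2 : Set G) * p.1} =
      ∑ x ∈ n.divisors.filter (n₁ ∣ ·), ∑ y ∈ n.divisors, ∏ p ∈ m.primeFactors,
        F r x y p (m.factorization p) (m₁.factorization p) := by
  classical
  obtain ⟨Q, hQ⟩ : ∃ Q : Subgroup G → Subgroup G → Prop, ∀ S S', Q S S' ↔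
      (S ≤ K h hA m₁ n₁ t₀ ∧ (S : Set G) * S' = (S' : Set G) * S) := ⟨_, fun _ _ => Iff.rfl⟩
  have hQ' : Nat.card {p : Subgroup G × Subgroup G // p.1 ≤ K h hA m₁ n₁ t₀ ∧
      (p.1 : Set G) * p.2 = (p.2 : Set G) * p.1} =
      Nat.card {p : Subgroup G × Subgroup G // Q p.1 p.2} := by
    congr 1
    exact congrArg Subtype (funext fun p => propext (hQ p.1 p.2).symm)
  rw [hQ', card_pair h hA Q]
  -- the sum over `t'`
  have e1 : ∀ d x t e y, d ∣ m → x ∣ n → e ∣ m → y ∣ n →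
      ∑ t' ∈ Finset.range (U m r y e),
        (if Q (K h hA d x t) (K h hA e y (t' : ℤ)) then 1 else 0) =
      (if K h hA d x t ≤ K h hA m₁ n₁ t₀ then 1 else 0) *
        (U m r y e / Nat.gcd (U m r x d) (U m r y e)) := by
    intro d x t e y hd hx he hy
    have e2 : ∀ t' : ℕ, (if Q (K h hA d x t) (K h hA e y (t' : ℤ)) then 1 else 0) =
        (if K h hA d x t ≤ K h hA m₁ n₁ t₀ then 1 else 0) *
        (if (Nat.gcd (U m r x d) (U m r y e) : ℤ) ∣ (t' : ℤ) - t then 1 else 0) := by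
      intro t'
      have := hQ (K h hA d x t) (K h hA e y (t' : ℤ))
      rw [perm_iff h hA hd hx he hy, ← dvd_neg, neg_sub] at this
      by_cases hc1 : K h hA d x t ≤ K h hA m₁ n₁ t₀
      · by_cases hc2 : (Nat.gcd (U m r x d) (U m r y e) : ℤ) ∣ (t' : ℤ) - t
        · rw [if_pos (this.mpr ⟨hc1, hc2⟩), if_pos hc1, if_pos hc2]
        · rw [if_neg (fun hh => hc2 (this.mp hh).2), if_pos hc1, if_neg hc2]
      · rw [if_neg (fun hh => hc1 (this.mp hh).1), if_neg hc1, zero_mul]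
    simp only [e2]
    rw [← Finset.mul_sum, ← Finset.card_filter]
    congr 1
    exact count_res (Nat.gcd_dvd_right _ _) (U_pos y e) t
  have e3 : ∀ τ ∈ T m n r, ∑ τ' ∈ T m n r, (if Q (Phi h hA τ) (Phi h hA τ') then 1 else 0) =
      (if Phi h hA τ ≤ K h hA m₁ n₁ t₀ then 1 else 0) * ∑ y ∈ n.divisors, ∑ e ∈ m.divisors,
        (U m r y e / Nat.gcd (U m r τ.1.2 τ.1.1) (U m r y e)) := by
    intro τ hτ
    rw [mem_T hA] at hτ
    conv_lhs => rw [T]
    rw [Finset.sum_sigma, Finset.sum_product_right, Finset.mul_sum]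
    refine Finset.sum_congr rfl fun y hy => ?_
    rw [Nat.mem_divisors] at hy
    rw [Finset.mul_sum]
    refine Finset.sum_congr rfl fun e he => ?_
    rw [Nat.mem_divisors] at he
    exact e1 _ _ _ _ _ hτ.1.1 hτ.1.2 he.1 hy.1
  rw [Finset.sum_congr rfl e3, T, Finset.sum_sigma, Finset.sum_product_right, Finset.sum_filter]
  refine Finset.sum_congr rfl fun x hx => ?_
  rw [Nat.mem_divisors] at hx
  have e4 : ∀ d ∈ m.divisors, ∑ t ∈ Finset.range (U m r (d, x).2 (d, x).1),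
      (if Phi h hA ⟨(d, x), t⟩ ≤ K h hA m₁ n₁ t₀ then 1 else 0) *
        ∑ y ∈ n.divisors, ∑ e ∈ m.divisors, (U m r y e / Nat.gcd (U m r x d) (U m r y e)) =
      (if n₁ ∣ x then (if m₁ ∣ d then U m r x d / U m r x m₁ else 0) else 0) *
        ∑ y ∈ n.divisors, ∑ e ∈ m.divisors, (U m r y e / Nat.gcd (U m r x d) (U m r y e)) := by
    intro d hd
    rw [Nat.mem_divisors] at hd
    rw [← Finset.sum_mul]
    congr 1
    exact inner1 h hA hm₁ hn₁ hd.1 hx.1 t₀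
  refine (Finset.sum_congr rfl e4).trans ?_
  split_ifs with h1
  · simp only [Finset.mul_sum]
    rw [Finset.sum_comm]
    refine Finset.sum_congr rfl fun y _ => ?_
    rw [← factor_sum hA x y hm₁]
    refine Finset.sum_congr rfl fun d _ => Finset.sum_congr rfl fun e _ => ?_
    split_ifs
    · rfl
    · rw [zero_mul]
  · simp

end Count

/-! ### The theorem -/

section Main

variable {m n r : ℕ} {G : Type} [Group G] {a b : G}

/-- the relative subgroup commutativity degree `sd(H, G)` -/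
noncomputable def sd {G : Type} [Group G] (H : Subgroup G) : ℚ :=
  (Nat.card {p : Subgroup G × Subgroup G // p.1 ≤ H ∧ (p.1 : Set G) * p.2 = (p.2 : Set G) * p.1} : ℚ) /
    (Nat.card {K : Subgroup G // K ≤ H} * Nat.card (Subgroup G))

/-- `(m₁, n₁, s) ∈ L` -/
def InL (m n r m₁ n₁ s : ℕ) : Prop :=
  m₁ ∣ m ∧ n₁ ∣ n ∧ s < m₁ ∧ m₁ ∣ s * ((r ^ n - 1) / (r ^ n₁ - 1))

/-- the set `H_(m₁, n₁, s)` -/
def HSet {G : Type} [Group G] (a b : G) (n m₁ n₁ s : ℕ) : Set G :=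
  {g | ∃ k ∈ Finset.Icc 1 (n / n₁), ∃ j : ℤ, g = (b ^ n₁ * a ^ s) ^ k * (a ^ m₁) ^ j}

/-- `1 + p + ⋯ + p^c` -/
def sg (p : ℚ) (c : ℕ) : ℚ := (p ^ (c + 1) - 1) / (p - 1)

/-- `∑_{k ≤ c} (2 k + f + 1) p^k` -/
def gg (p : ℚ) (f c : ℕ) : ℚ :=
  ((2 * c + f + 1) * p ^ (c + 2) - (2 * c + f + 3) * p ^ (c + 1) - (f - 1) * p + f + 1) / (p - 1) ^ 2

/-- the local factor at `p` of the number of permuting pairs -/
def A2 (r x y p e f : ℕ) : ℚ :=
  if r ^ x ≡ 1 [MOD p] then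
    if r ^ y ≡ 1 [MOD p] then (e - f + 1) * (e + 1) else (e - f + 1) * sg p e
  else
    if r ^ y ≡ 1 [MOD p] then (e + 1) * sg p (e - f) else gg p f (e - f)

/-- the local factor at `p` of the number of subgroups -/
def A1 (r x p e f : ℕ) : ℚ := if r ^ x ≡ 1 [MOD p] then e - f + 1 else sg p (e - f)

theorem sg_eq {p : ℕ} (hp : 1 < p) (c : ℕ) :
    ((∑ k ∈ Finset.range (c + 1), p ^ k : ℕ) : ℚ) = sg p c := by
  have hp1 : (p : ℚ) - 1 ≠ 0 := by
    have : (1 : ℚ) < p := by exact_mod_cast hp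
    linarith
  rw [sg, eq_div_iff hp1]
  push_cast
  exact geom_sum_mul (p : ℚ) (c + 1)

theorem gg_eq {p : ℕ} (hp : 1 < p) (f c : ℕ) :
    ((∑ k ∈ Finset.range (c + 1), (2 * k + f + 1) * p ^ k : ℕ) : ℚ) = gg p f c := by
  have hp1 : (p : ℚ) - 1 ≠ 0 := by
    have : (1 : ℚ) < p := by exact_mod_cast hp
    linarith
  rw [gg, eq_div_iff (pow_ne_zero 2 hp1)]
  induction c with
  | zero =>
    simp
    ring
  | succ c ih =>
    rw [Finset.sum_range_succ]
    push_cast at ih ⊢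
    rw [add_mul, ih]
    ring

theorem A2_eq {x y p e f : ℕ} (hp : 1 < p) (hf : f ≤ e) : (F r x y p e f : ℚ) = A2 r x y p e f := by
  have hsub : ((e - f : ℕ) : ℚ) = e - f := Nat.cast_sub hf
  rw [F, A2]
  split_ifs
  · push_cast
    rw [hsub]
  · rw [Nat.cast_mul, sg_eq hp]
    push_cast
    rw [hsub]
  · rw [Nat.cast_mul, sg_eq hp]
    push_cast
    rfl
  · exact gg_eq hp f (e - f)

theorem A1_eq {x p e f : ℕ} (hp : 1 < p) (hf : f ≤ e) : (F1 r x p e f : ℚ) = A1 r x p e f := by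
  have hsub : ((e - f : ℕ) : ℚ) = e - f := Nat.cast_sub hf
  rw [F1, A1]
  split_ifs
  · push_cast
    rw [hsub]
  · exact sg_eq hp _

/-- the condition in `L` -/
theorem inL_geom (hA : Admissible m n r) {m₁ n₁ s : ℕ} (hL : InL m n r m₁ n₁ s) :
    (m₁ : ℤ) ∣ (s : ℤ) * ∑ l ∈ Finset.range (n / n₁), (r : ℤ) ^ (n₁ * l) := by
  obtain ⟨h1, h2, h3, h4⟩ := hL
  have hn₁ : 0 < n₁ := Nat.pos_of_dvd_of_pos h2 hA.pos_n
  rcases (by omega : r = 0 ∨ r = 1 ∨ 2 ≤ r) with rfl | rfl | hr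
  · have hm : m = 1 := by
      have h := hA.pow_r
      rw [zero_pow hA.pos_n.ne'] at h
      have := (Nat.modEq_iff_dvd.mp h)
      simp at this
      have : (m : ℤ).natAbs ∣ 1 := Int.natAbs_dvd_natAbs.mpr (by simpa using this)
      simpa using this
    rw [hm, Nat.dvd_one] at h1
    rw [h1]
    exact one_dvd _
  · have hm : m = 1 := by
      have h := hA.gcd_mr
      simpa using h
    rw [hm, Nat.dvd_one] at h1
    rw [h1]
    exact one_dvd _
  · have hrr : 2 ≤ r ^ n₁ := hr.trans (Nat.le_self_pow hn₁.ne' r)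
    have e := Nat.geomSum_eq hrr (n / n₁)
    rw [← pow_mul, Nat.mul_div_cancel' h2] at e
    rw [← e] at h4
    simp only [← pow_mul] at h4
    exact_mod_cast h4

theorem hset_eq (h : IsZM m n r a b) (hA : Admissible m n r) {m₁ n₁ s : ℕ}
    (hm₁ : m₁ ∣ m) (hn₁ : n₁ ∣ n) {t : ℤ} (ht : (m₁ : ℤ) ∣ s + t * ((r : ℤ) ^ n₁ - 1)) :
    (K h hA m₁ n₁ t : Set G) = HSet a b n m₁ n₁ s := by
  have hn₁0 : 0 < n₁ := Nat.pos_of_dvd_of_pos hn₁ hA.pos_n
  have hb : b ^ n₁ * a ^ (s : ℤ) ∈ K h hA m₁ n₁ t := (mem_K h hA hm₁ hn₁).mpr ⟨dvd_rfl, ht⟩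
  have ha : a ^ (m₁ : ℤ) ∈ K h hA m₁ n₁ t := (a_mem_K h hA hm₁ hn₁).mpr dvd_rfl
  ext g
  constructor
  · intro hg
    obtain ⟨i, j, rfl, ⟨q, rfl⟩, hj⟩ := (mem_K' h hA).mp hg
    obtain ⟨N, hN⟩ := hn₁
    have hN' : n / n₁ = N := by rw [hN, Nat.mul_div_cancel_left _ hn₁0]
    have hN0 : 0 < N := by
      rcases Nat.eq_zero_or_pos N with rfl | h0
      · rw [mul_zero] at hN
        exact absurd hN hA.pos_n.ne'
      · exact h0
    obtain ⟨k, hk1, hk2, hk3⟩ : ∃ k, 1 ≤ k ∧ k ≤ N ∧ q ≡ k [MOD N] := by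
      by_cases h0 : q % N = 0
      · exact ⟨N, hN0, le_rfl, by rw [Nat.ModEq, h0, Nat.mod_self]⟩
      · exact ⟨q % N, by omega, (Nat.mod_lt _ hN0).le, (Nat.mod_modEq q N).symm⟩
    have hbk : b ^ (n₁ * q) = b ^ (n₁ * k) := b_pow_eq h (by
      rw [hN]
      exact hk3.mul_left' n₁)
    have hpow := pow_mem hb k
    rw [pow_form h] at hpow
    set j' : ℤ := (s : ℤ) * ∑ l ∈ Finset.range k, (r : ℤ) ^ (n₁ * l)
    have h1 : a ^ (j - j') ∈ K h hA m₁ n₁ t := by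
      have : a ^ (j - j') = (b ^ (n₁ * k) * a ^ j')⁻¹ * (b ^ (n₁ * q) * a ^ j) := by
        rw [hbk]
        group
      rw [this]
      exact mul_mem (inv_mem hpow) hg
    rw [a_mem_K h hA hm₁ ⟨N, hN⟩] at h1
    obtain ⟨l, hl⟩ := h1
    refine ⟨k, by rw [Finset.mem_Icc, hN']; exact ⟨hk1, hk2⟩, l, ?_⟩
    have e1 : (b ^ n₁ * a ^ s) ^ k = b ^ (n₁ * k) * a ^ j' := by
      rw [← zpow_natCast a s]
      exact pow_form h n₁ s k
    rw [e1, hbk, ← zpow_natCast a m₁, ← zpow_mul, ← hl, mul_assoc, ← zpow_add]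
    congr 2
    ring
  · rintro ⟨k, -, j, rfl⟩
    rw [zpow_natCast] at ha hb
    exact mul_mem (pow_mem hb k) (zpow_mem ha j)

/-- **The relative subgroup commutativity degrees of the subgroups of `ZM(m, n, r)`.** -/
theorem result (hA : Admissible m n r) (h : IsZM m n r a b) (m₁ n₁ s : ℕ)
    (hL : InL m n r m₁ n₁ s) :
    ∃ H : Subgroup G, (H : Set G) = HSet a b n m₁ n₁ s ∧
      sd H = (∑ x ∈ n.divisors.filter (n₁ ∣ ·), ∑ y ∈ n.divisors,
          ∏ p ∈ m.primeFactors, A2 r x y p (m.factorization p) (m₁.factorization p)) /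
        ((∑ x ∈ n.divisors.filter (n₁ ∣ ·),
            ∏ p ∈ m.primeFactors, A1 r x p (m.factorization p) (m₁.factorization p)) *
          ∑ y ∈ n.divisors, ∏ p ∈ m.primeFactors, A1 r y p (m.factorization p) 0) := by
  obtain ⟨t, ht⟩ := exists_t hA hL.1 hL.2.1 (inL_geom hA hL)
  refine ⟨K h hA m₁ n₁ t, hset_eq h hA hL.1 hL.2.1 ht, ?_⟩
  have hm := hA.pos_m.ne'
  have hle : ∀ p, m₁.factorization p ≤ m.factorization p :=
    fun p => (Nat.factorization_le_iff_dvd (ne_zero_of_dvd_ne_zero hm hL.1) hm).mpr hL.1 p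
  have hc : Nat.card (Subgroup G) = Nat.card {S : Subgroup G // S ≤ K h hA 1 1 0} := by
    have htop : K h hA 1 1 0 = ⊤ := by
      rw [eq_top_iff]
      intro g _
      obtain ⟨i, j, rfl⟩ := E_surj h hA g
      rw [mem_K h hA (one_dvd _) (one_dvd _)]
      exact ⟨one_dvd _, by simp⟩
    rw [htop]
    exact Nat.card_congr (Equiv.subtypeUnivEquiv fun S => le_top).symm
  rw [sd, hc, count1 h hA hL.1 hL.2.1, count1 h hA (one_dvd _) (one_dvd _),
    count2 h hA hL.1 hL.2.1]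
  have e1 : (n.divisors.filter (1 ∣ ·)) = n.divisors :=
    Finset.filter_true_of_mem fun x _ => one_dvd x
  rw [e1]
  push_cast
  congr 1
  · refine Finset.sum_congr rfl fun x _ => Finset.sum_congr rfl fun y _ =>
      Finset.prod_congr rfl fun p hp => ?_
    exact A2_eq (Nat.prime_of_mem_primeFactors hp).one_lt (hle p)
  · congr 1
    · refine Finset.sum_congr rfl fun x _ => Finset.prod_congr rfl fun p hp => ?_
      exact A1_eq (Nat.prime_of_mem_primeFactors hp).one_lt (hle p)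
    · refine Finset.sum_congr rfl fun x _ => Finset.prod_congr rfl fun p hp => ?_
      rw [Nat.factorization_one]
      exact A1_eq (Nat.prime_of_mem_primeFactors hp).one_lt (Nat.zero_le _)

end Main

end Pool.Agent.Results.MP_93267c_al.SdZM
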